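import Pool.Agent.Helper67.SQ.Basic

/-!
MP_9b5db0_gt, R1 (helper14): volume bound and sparseness bound.
-/

namespace Helper67.SQ

open Real Finset

/-- the number of integers in an interval -/
lemma card_Icc_floor_le (a : ℝ) (ha : 0 ≤ a) :
    ((Finset.Icc ⌊-a⌋ ⌊a⌋).card : ℝ) ≤ 2 * a + 2 := by
  rw [Int.card_Icc]
  have h1 : (⌊-a⌋ : ℤ) ≤ 0 := by
    rw [← Int.cast_le (R := ℝ)]
    exact (Int.floor_le _).trans (by simpa using ha)
  have h2 : (0 : ℤ) ≤ ⌊a⌋ := Int.floor_nonneg.2 ha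
  have h3 : ((⌊a⌋ + 1 - ⌊-a⌋).toNat : ℤ) = ⌊a⌋ + 1 - ⌊-a⌋ := Int.toNat_of_nonneg (by omega)
  have h4 : (((⌊a⌋ + 1 - ⌊-a⌋).toNat : ℕ) : ℝ) = (⌊a⌋ : ℝ) + 1 - (⌊-a⌋ : ℝ) := by
    have := congrArg (fun z : ℤ => (z : ℝ)) h3
    push_cast at this
    exact this
  rw [h4]
  have h5 := Int.floor_le a
  have h6 := Int.lt_floor_add_one (-a)
  linarith

lemma floor_mem_Icc {a z : ℝ} (h : |z| ≤ a) : ⌊z⌋ ∈ Finset.Icc ⌊-a⌋ ⌊a⌋ := by
  rw [abs_le] at h
  rw [Finset.mem_Icc]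
  exact ⟨Int.floor_le_floor h.1, Int.floor_le_floor h.2⟩

/-- the cell of a vertex -/
noncomputable def cell (X Y T : V → ℝ) (x₀ y₀ : ℝ) (p : V) : ℕ × ℤ × ℤ :=
  (⌊T p⌋₊, ⌊(X p - x₀) * exp ⌊T p⌋₊⌋, ⌊(Y p - y₀) * exp (-⌊T p⌋₊)⌋)

lemma cell_near {Λ : ℝ} {X Y T : V → ℝ} (h : Coarse Λ X Y T) {x₀ y₀ : ℝ} {p q : V}
    (hp : 0 ≤ T p) (hq : 0 ≤ T q) (hpq : cell X Y T x₀ y₀ p = cell X Y T x₀ y₀ q) :
    Near ⌈5 * Λ⌉₊ p q := by
  unfold cell at hpq
  simp only [Prod.mk.injEq] at hpq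
  obtain ⟨h1, h2, h3⟩ := hpq
  have hΛ := h.one_le
  refine h.lower p q (⌊T p⌋₊ : ℝ) (⌊T p⌋₊ : ℝ) _ (le_trans ?_ (Nat.le_ceil _))
  rw [← h1] at h2 h3
  have e1 : |T p - (⌊T p⌋₊ : ℝ)| ≤ 1 := by
    rw [abs_le]
    have := Nat.floor_le hp
    have := Nat.lt_floor_add_one (T p)
    constructor <;> linarith
  have e2 : |(⌊T p⌋₊ : ℝ) - T q| ≤ 1 := by
    rw [h1, abs_le]
    have := Nat.floor_le hq
    have := Nat.lt_floor_add_one (T q)
    constructor <;> linarith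
  have e3 : exp (⌊T p⌋₊ : ℝ) * |X p - X q| ≤ 1 := by
    have := Int.abs_sub_lt_one_of_floor_eq_floor h2
    rw [← sub_mul, abs_mul, abs_of_pos (exp_pos _)] at this
    have e : X p - x₀ - (X q - x₀) = X p - X q := by ring
    rw [e] at this
    linarith
  have e4 : exp (-(⌊T p⌋₊ : ℝ)) * |Y p - Y q| ≤ 1 := by
    have := Int.abs_sub_lt_one_of_floor_eq_floor h3
    rw [← sub_mul, abs_mul, abs_of_pos (exp_pos _)] at this
    have e : Y p - y₀ - (Y q - y₀) = Y p - Y q := by ring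
    rw [e] at this
    linarith
  have e5 : |(⌊T p⌋₊ : ℝ) - (⌊T p⌋₊ : ℝ)| = 0 := by simp
  rw [e5]
  nlinarith

theorem volume_bound (Λ : ℝ) (hΛ : 1 ≤ Λ) : ∃ C : ℝ, 0 < C ∧
    ∀ X Y T : V → ℝ, Coarse Λ X Y T → ∀ (S : Finset V) (x₀ y₀ w W H : ℝ),
      0 ≤ w → 0 ≤ H → exp H ≤ W →
      (∀ p ∈ S, 0 ≤ T p ∧ T p ≤ H ∧ |X p - x₀| ≤ w ∧ |Y p - y₀| ≤ W) →
      (S.card : ℝ) ≤ C * (w + 1) * (H + 1) * W := by
  classical
  refine ⟨8 * 8 ^ ⌈5 * Λ⌉₊, by positivity, ?_⟩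
  intro X Y T h S x₀ y₀ w W H hw hH hW hS
  have hW0 : 0 < W := lt_of_lt_of_le (exp_pos _) hW
  -- the fibres
  have hfib : ∀ a ∈ S.image (cell X Y T x₀ y₀),
      (S.filter fun x => cell X Y T x₀ y₀ x = a).card ≤ 8 ^ ⌈5 * Λ⌉₊ := by
    intro a ha
    obtain ⟨p, hp, rfl⟩ := mem_image.1 ha
    obtain ⟨B, hB1, hB2⟩ := near_ball ⌈5 * Λ⌉₊ p
    refine le_trans (card_le_card ?_) hB1
    intro q hq
    rw [mem_filter] at hq
    exact hB2 q (cell_near h (hS p hp).1 (hS q hq.1).1 hq.2.symm)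
  have h1 := card_le_mul_card_image S (8 ^ ⌈5 * Λ⌉₊) hfib
  -- the image
  have h2 : S.image (cell X Y T x₀ y₀) ⊆ (range (⌊H⌋₊ + 1)).biUnion fun k =>
      ((Finset.Icc ⌊-(w * exp k)⌋ ⌊w * exp k⌋) ×ˢ
        (Finset.Icc ⌊-(W * exp (-k))⌋ ⌊W * exp (-k)⌋)).image (fun ij => (k, ij)) := by
    intro a ha
    obtain ⟨p, hp, rfl⟩ := mem_image.1 ha
    obtain ⟨g1, g2, g3, g4⟩ := hS p hp
    rw [mem_biUnion]
    refine ⟨⌊T p⌋₊, ?_, ?_⟩
    · rw [mem_range]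
      exact Nat.lt_succ_of_le (Nat.floor_le_floor g2)
    · rw [mem_image]
      refine ⟨(⌊(X p - x₀) * exp ⌊T p⌋₊⌋, ⌊(Y p - y₀) * exp (-⌊T p⌋₊)⌋), ?_, rfl⟩
      rw [mem_product]
      constructor
      · refine floor_mem_Icc ?_
        rw [abs_mul, abs_of_pos (exp_pos _)]
        exact mul_le_mul_of_nonneg_right g3 (exp_pos _).le
      · refine floor_mem_Icc ?_
        rw [abs_mul, abs_of_pos (exp_pos _)]
        exact mul_le_mul_of_nonneg_right g4 (exp_pos _).le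
  have h3 : ((S.image (cell X Y T x₀ y₀)).card : ℝ) ≤ (H + 1) * (8 * (w + 1) * W) := by
    have e1 : ((S.image (cell X Y T x₀ y₀)).card : ℝ) ≤
        ∑ k ∈ range (⌊H⌋₊ + 1), (8 * (w + 1) * W) := by
      refine le_trans (Nat.cast_le.2 ((card_le_card h2).trans card_biUnion_le)) ?_
      rw [Nat.cast_sum]
      refine sum_le_sum fun k hk => ?_
      rw [mem_range] at hk
      have hk' : (k : ℝ) ≤ H := by
        have : k ≤ ⌊H⌋₊ := by omega
        exact (Nat.cast_le.2 this).trans (Nat.floor_le hH)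
      refine le_trans (Nat.cast_le.2 card_image_le) ?_
      rw [card_product, Nat.cast_mul]
      have f1 := card_Icc_floor_le (w * exp k) (by positivity)
      have f2 := card_Icc_floor_le (W * exp (-k)) (by positivity)
      have f3 : (1 : ℝ) ≤ exp k := one_le_exp (by positivity)
      have f4 : (1 : ℝ) ≤ W * exp (-k) := by
        have g1 : exp k ≤ W := (exp_le_exp.2 hk').trans hW
        have g2 : exp (k : ℝ) * exp (-k) = 1 := by rw [← exp_add]; simp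
        rw [← g2]
        exact mul_le_mul_of_nonneg_right g1 (exp_pos _).le
      have f5 : exp (k : ℝ) * exp (-k) = 1 := by rw [← exp_add]; simp
      calc ((Finset.Icc ⌊-(w * exp k)⌋ ⌊w * exp k⌋).card : ℝ) *
            ((Finset.Icc ⌊-(W * exp (-k))⌋ ⌊W * exp (-k)⌋).card : ℝ)
          ≤ (2 * (w * exp k) + 2) * (2 * (W * exp (-k)) + 2) :=
            mul_le_mul f1 f2 (by positivity) (by positivity)
        _ ≤ (2 * (w + 1) * exp k) * (4 * (W * exp (-k))) := by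
            refine mul_le_mul (by nlinarith) (by linarith) (by positivity) (by positivity)
        _ = 8 * (w + 1) * W * (exp (k : ℝ) * exp (-k)) := by ring
        _ = 8 * (w + 1) * W := by rw [f5, mul_one]
    refine e1.trans ?_
    rw [sum_const, card_range, nsmul_eq_mul]
    refine mul_le_mul_of_nonneg_right ?_ (by positivity)
    push_cast
    linarith [Nat.floor_le hH]
  calc (S.card : ℝ) ≤ ((8 ^ ⌈5 * Λ⌉₊ * (S.image (cell X Y T x₀ y₀)).card : ℕ) : ℝ) :=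
        Nat.cast_le.2 h1
    _ = 8 ^ ⌈5 * Λ⌉₊ * ((S.image (cell X Y T x₀ y₀)).card : ℝ) := by push_cast; ring
    _ ≤ 8 ^ ⌈5 * Λ⌉₊ * ((H + 1) * (8 * (w + 1) * W)) :=
        mul_le_mul_of_nonneg_left h3 (by positivity)
    _ = 8 * 8 ^ ⌈5 * Λ⌉₊ * (w + 1) * (H + 1) * W := by ring

lemma desc_injOn (m : ℕ) : Set.InjOn (fun x : V × ℕ => desc x.1 m x.2)
    {x | x.2 < 2 ^ m} := by
  rintro ⟨p, i⟩ hi ⟨q, j⟩ hj h
  simp only [Set.mem_ofPred_eq] at hi hj
  unfold desc at h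
  simp only [Prod.mk.injEq] at h
  obtain ⟨h1, h2⟩ := h
  have hi' : (i : ℤ) < 2 ^ m := by exact_mod_cast hi
  have hj' : (j : ℤ) < 2 ^ m := by exact_mod_cast hj
  have hm : (0 : ℤ) < 2 ^ m := by positivity
  have h3 : p.2 = q.2 := by
    have e1 : (2 ^ m * p.2 + (i : ℤ)) / 2 ^ m = p.2 := by
      rw [Int.mul_add_ediv_left _ _ hm.ne', Int.ediv_eq_zero_of_lt (by positivity) hi', add_zero]
    have e2 : (2 ^ m * q.2 + (j : ℤ)) / 2 ^ m = q.2 := by
      rw [Int.mul_add_ediv_left _ _ hm.ne', Int.ediv_eq_zero_of_lt (by positivity) hj', add_zero]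
    rw [← e1, h2, e2]
  have h4 : (i : ℤ) = j := by rw [h3] at h2; linarith
  have h5 : p.1 = q.1 := by linarith
  ext
  · exact h5
  · exact h3
  · exact_mod_cast h4

theorem sparse_bound (Λ : ℝ) (hΛ : 1 ≤ Λ) : ∃ C : ℝ, 0 < C ∧
    ∀ X Y T : V → ℝ, Coarse Λ X Y T → (∀ p, 0 ≤ T p) →
    ∀ (S : Finset V) (x₀ y₀ w H : ℝ) (m : ℕ),
      0 ≤ w → 0 ≤ H →
      (∀ p ∈ S, T p + 2 * Λ * m ≤ H ∧ |X p - x₀| ≤ w ∧ |Y p - y₀| ≤ 4 * exp H) →
      (S.card : ℝ) * 2 ^ m ≤ C * (w + m + 1) * (H + 1) * exp H := by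
  classical
  obtain ⟨C, hC, hvol⟩ := volume_bound Λ hΛ
  refine ⟨5 * C * Λ, by positivity, ?_⟩
  intro X Y T h hT S x₀ y₀ w H m hw hH hS
  have key := hvol X Y T h ((S ×ˢ range (2 ^ m)).image fun x : V × ℕ => desc x.1 m x.2)
    x₀ y₀ (w + Λ * m) (5 * exp H) H (by positivity) hH (by linarith [exp_pos H]) ?_
  · rw [card_image_of_injOn, card_product, card_range] at key
    · push_cast at key
      refine key.trans ?_
      have : w + Λ * m + 1 ≤ Λ * (w + m + 1) := by nlinarith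
      calc C * (w + Λ * m + 1) * (H + 1) * (5 * exp H)
          ≤ C * (Λ * (w + m + 1)) * (H + 1) * (5 * exp H) := by gcongr
        _ = 5 * C * Λ * (w + m + 1) * (H + 1) * exp H := by ring
    · refine (desc_injOn m).mono ?_
      intro x hx
      rw [mem_coe, mem_product, mem_range] at hx
      exact hx.2
  · intro q hq
    obtain ⟨⟨p, i⟩, hpi, rfl⟩ := mem_image.1 hq
    rw [mem_product, mem_range] at hpi
    obtain ⟨hp, hi⟩ := hpi
    simp only at hp hi ⊢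
    obtain ⟨g1, g2, g3⟩ := hS p hp
    have hnear : Near m p (desc p m i) := by
      have := ray_near p m i 0 m (Nat.zero_le _) le_rfl
      rwa [ray_zero p m i hi, ray_last, Nat.sub_zero] at this
    have t1 := h.near_T hnear
    have t2 := h.near_X_of_nonneg hT hnear
    have t3 := h.near_Y hnear
    have hm : 0 ≤ Λ * m := by positivity
    rw [abs_le] at t1
    refine ⟨hT _, by nlinarith [t1.1], ?_, ?_⟩
    · calc |X (desc p m i) - x₀| = |(X p - x₀) - (X p - X (desc p m i))| := by ring_nf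
        _ ≤ |X p - x₀| + |X p - X (desc p m i)| := abs_sub _ _
        _ ≤ w + Λ * m := add_le_add g2 t2
    · have t4 : m * Λ * exp (T p + Λ * m) ≤ exp H := by
        have e1 : T p + Λ * m ≤ H - Λ * m := by nlinarith
        have e2 : Λ * m ≤ exp (Λ * m) := by linarith [add_one_le_exp (Λ * m)]
        calc m * Λ * exp (T p + Λ * m) ≤ exp (Λ * m) * exp (H - Λ * m) := by
              refine mul_le_mul (by linarith) (exp_le_exp.2 e1) (exp_pos _).le (exp_pos _).le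
          _ = exp H := by rw [← exp_add]; ring_nf
      calc |Y (desc p m i) - y₀| = |(Y p - y₀) - (Y p - Y (desc p m i))| := by ring_nf
        _ ≤ |Y p - y₀| + |Y p - Y (desc p m i)| := abs_sub _ _
        _ ≤ 4 * exp H + exp H := add_le_add g3 (t3.trans t4)
        _ = 5 * exp H := by ring

end Helper67.SQ
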